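import Mathlib

namespace Pool.Agent.Results.MP_d393fc_an.Converges

open MeasureTheory Set Filter Topology

/-- `Δ_k = k ∫_0^∞ ω(t) t^(k-1) dt`. -/
noncomputable def Del (ω : ℝ → ℝ) (k : ℕ) : ℝ := k * ∫ t in Ioi (0 : ℝ), ω t * t ^ (k - 1)

/-- `L(r) = ∫_r^∞ ω(t) t⁻¹ dt`. -/
noncomputable def Lf (ω : ℝ → ℝ) (r : ℝ) : ℝ := ∫ t in Ioi r, ω t * t⁻¹

/-- `I_k(r) = ∫_0^r ω(t) t^(k-1) dt`. -/
noncomputable def If (ω : ℝ → ℝ) (k : ℕ) (r : ℝ) : ℝ := ∫ t in Ioc 0 r, ω t * t ^ (k - 1)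

/-- `J_k(r) = ∫_r^∞ ω(t) t^(-k-1) dt`. -/
noncomputable def Jf (ω : ℝ → ℝ) (k : ℕ) (r : ℝ) : ℝ := ∫ t in Ioi r, ω t * (t ^ (k + 1))⁻¹

/-- The `k`-th term `(a^(-k) I_k(|a|) - conj(a)^(s k) J_k(|a|)) z^k / Δ_k`. -/
noncomputable def term (ω : ℝ → ℝ) (s : ℤ) (z a : ℂ) (k : ℕ) : ℂ :=
  (a ^ (-(k : ℤ)) * (If ω k ‖a‖ : ℂ) - (starRingEnd ℂ a) ^ (s * k) * (Jf ω k ‖a‖ : ℂ)) * z ^ k
    / (Del ω k : ℂ)

/-- `W_ω(z; a)`. -/
noncomputable def W (ω : ℝ → ℝ) (s : ℤ) (z a : ℂ) : ℂ :=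
  (Lf ω ‖a‖ : ℂ) - ∑' n : ℕ, term ω s z a (n + 1)

/-- `A_ω(z; a)`. -/
noncomputable def A (ω : ℝ → ℝ) (s : ℤ) (z a : ℂ) : ℂ :=
  (1 - z / a) * Complex.exp (-W ω s z a)

structure Hyp (ω : ℝ → ℝ) : Prop where
  hc : ContinuousOn ω (Ici 0)
  hpos : ∀ t, 0 ≤ t → 0 < ω t
  hanti : AntitoneOn ω (Ici 0)
  hint : ∀ n : ℕ, IntegrableOn (fun t => ω t * t ^ n) (Ioi 0)

variable {ω : ℝ → ℝ}

lemma intJ0 (H : Hyp ω) (m : ℕ) {r : ℝ} (hr : 0 < r) :
    IntegrableOn (fun t => ω t * (t ^ m)⁻¹) (Ioi r) := by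
  have h0 : IntegrableOn (fun t => ω t * t ^ 0) (Ioi r) :=
    (H.hint 0).mono_set (Ioi_subset_Ioi hr.le)
  have h1 : IntegrableOn (fun t => ω t * t ^ 0 * (r ^ m)⁻¹) (Ioi r) := h0.mul_const _
  refine Integrable.mono' h1 ?_ ?_
  · refine ContinuousOn.aestronglyMeasurable ?_ measurableSet_Ioi
    refine (H.hc.mono fun t ht => (hr.trans ht).le).mul ?_
    exact (continuousOn_pow m).inv₀ fun t ht => pow_ne_zero _ (hr.trans ht).ne'
  · refine (ae_restrict_iff' measurableSet_Ioi).2 (Eventually.of_forall fun t ht => ?_)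
    have ht0 : 0 < t := hr.trans ht
    have hw := H.hpos t ht0.le
    rw [Real.norm_eq_abs, abs_of_nonneg (by positivity), pow_zero, mul_one]
    have : r ≤ t := le_of_lt ht
    gcongr

lemma intL (H : Hyp ω) {r : ℝ} (hr : 0 < r) :
    IntegrableOn (fun t => ω t * t⁻¹) (Ioi r) := by
  simpa using intJ0 H 1 hr

lemma J_nonneg (H : Hyp ω) (k : ℕ) {r : ℝ} (hr : 0 < r) : 0 ≤ Jf ω k r := by
  refine setIntegral_nonneg measurableSet_Ioi fun t ht => ?_
  have ht0 : 0 < t := hr.trans ht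
  have hw := H.hpos t ht0.le
  positivity

lemma J_le (H : Hyp ω) (k : ℕ) {r : ℝ} (hr : 0 < r) : Jf ω k r ≤ (r ^ k)⁻¹ * Lf ω r := by
  unfold Jf Lf
  rw [← integral_const_mul]
  refine setIntegral_mono_on (intJ0 H _ hr) ((intL H hr).const_mul _) measurableSet_Ioi
    fun t ht => ?_
  have ht0 : 0 < t := hr.trans ht
  have hw := H.hpos t ht0.le
  have : r ≤ t := le_of_lt ht
  have h2 : (t ^ k)⁻¹ ≤ (r ^ k)⁻¹ := by gcongr
  calc ω t * (t ^ (k + 1))⁻¹ = (t ^ k)⁻¹ * (ω t * t⁻¹) := by field_simp; ring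
    _ ≤ _ := by gcongr

lemma L_sub (H : Hyp ω) {r : ℝ} (hr : 0 < r) {S : Set ℝ} (hS : S ⊆ Ioi r) :
    ∫ t in S, ω t * t⁻¹ ≤ Lf ω r := by
  refine setIntegral_mono_set (intL H hr) ?_ (LE.le.eventuallyLE hS)
  refine (ae_restrict_iff' measurableSet_Ioi).2 (Eventually.of_forall fun t ht => ?_)
  have ht0 : 0 < t := hr.trans ht
  have hw := H.hpos t ht0.le
  simp only [Pi.zero_apply]
  positivity

lemma L_lower (H : Hyp ω) {r : ℝ} (hr : 0 < r) : ω (2 * r) / 2 ≤ Lf ω r := by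
  refine le_trans ?_ (L_sub H hr (S := Ioc r (2 * r)) Ioc_subset_Ioi_self)
  have h1 : ∫ _ in Ioc r (2 * r), ω (2 * r) * (2 * r)⁻¹ = ω (2 * r) / 2 := by
    rw [setIntegral_const]
    simp only [Measure.real, Real.volume_Ioc, smul_eq_mul]
    rw [ENNReal.toReal_ofReal (by linarith)]
    field_simp; ring
  rw [← h1]
  refine setIntegral_mono_on (integrableOn_const (by simp)) ((intL H hr).mono_set Ioc_subset_Ioi_self)
    measurableSet_Ioc fun t ht => ?_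
  have ht0 : 0 < t := hr.trans ht.1
  have h2 : ω (2 * r) ≤ ω t := H.hanti ht0.le (by simp; linarith) ht.2
  have h3 := H.hpos t ht0.le
  have h4 := ht.2
  gcongr

lemma L_pos (H : Hyp ω) {r : ℝ} (hr : 0 < r) : 0 < Lf ω r := by
  have := H.hpos (2 * r) (by linarith)
  have := L_lower H hr
  linarith

lemma L_anti (H : Hyp ω) {r r' : ℝ} (hr : 0 < r) (h : r ≤ r') : Lf ω r' ≤ Lf ω r :=
  L_sub H hr (Ioi_subset_Ioi h)

lemma pow_sub_le (H : Hyp ω) (n : ℕ) {S : Set ℝ} (hS : S ⊆ Ioi 0) :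
    ∫ t in S, ω t * t ^ n ≤ ∫ t in Ioi (0 : ℝ), ω t * t ^ n := by
  refine setIntegral_mono_set (H.hint n) ?_ (LE.le.eventuallyLE hS)
  refine (ae_restrict_iff' measurableSet_Ioi).2 (Eventually.of_forall fun t ht => ?_)
  have ht0 : 0 < t := ht
  have hw := H.hpos t ht0.le
  simp only [Pi.zero_apply]
  positivity

lemma Del_lower (H : Hyp ω) (n : ℕ) {M : ℝ} (hM : 0 < M) :
    ω M * M ^ (n + 1) ≤ Del ω (n + 1) := by
  unfold Del
  simp only [Nat.add_sub_cancel]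
  have h1 : ∫ t in Ioc 0 M, ω M * t ^ n = ω M * M ^ (n + 1) / (n + 1) := by
    rw [← intervalIntegral.integral_of_le hM.le, intervalIntegral.integral_const_mul, integral_pow]
    simp; ring
  have h2 : ∫ t in Ioc 0 M, ω M * t ^ n ≤ ∫ t in Ioc 0 M, ω t * t ^ n := by
    refine setIntegral_mono_on ?_ ((H.hint n).mono_set Ioc_subset_Ioi_self)
      measurableSet_Ioc fun t ht => ?_
    · exact (Continuous.integrableOn_Icc (by fun_prop)).mono_set Ioc_subset_Icc_self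
    · have ht0 : 0 < t := ht.1
      have h2 : ω M ≤ ω t := H.hanti ht0.le hM.le ht.2
      gcongr
  have h3 := pow_sub_le H n (S := Ioc 0 M) Ioc_subset_Ioi_self
  have h4 : ω M * M ^ (n + 1) / (n + 1) ≤ ∫ t in Ioi (0 : ℝ), ω t * t ^ n := by linarith
  rw [div_le_iff₀ (by positivity)] at h4
  push_cast
  linarith

lemma Del_pos (H : Hyp ω) (n : ℕ) : 0 < Del ω (n + 1) := by
  have h := Del_lower H n one_pos
  have := H.hpos 1 zero_le_one
  simp at h
  linarith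

lemma I_nonneg (H : Hyp ω) (k : ℕ) (r : ℝ) : 0 ≤ If ω k r := by
  refine setIntegral_nonneg measurableSet_Ioc fun t ht => ?_
  have ht0 : 0 < t := ht.1
  have hw := H.hpos t ht0.le
  positivity

lemma I_le (H : Hyp ω) (n : ℕ) {r : ℝ} (hr : 0 < r) : If ω (n + 1) r ≤ ω 0 * r ^ (n + 1) := by
  unfold If
  simp only [Nat.add_sub_cancel]
  have h1 : ∫ _ in Ioc 0 r, ω 0 * r ^ n = ω 0 * r ^ (n + 1) := by
    rw [setIntegral_const]
    simp only [Measure.real, Real.volume_Ioc, smul_eq_mul]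
    rw [ENNReal.toReal_ofReal (by linarith)]
    ring
  rw [← h1]
  refine setIntegral_mono_on ((H.hint n).mono_set Ioc_subset_Ioi_self)
    (integrableOn_const (by simp)) measurableSet_Ioc fun t ht => ?_
  have ht0 : 0 < t := ht.1
  have h2 : ω t ≤ ω 0 := H.hanti (le_refl (0 : ℝ)) ht0.le ht0.le
  have h3 := H.hpos 0 le_rfl
  have h4 := ht.2
  gcongr

/-- tail integral -/
noncomputable def Tf (ω : ℝ → ℝ) (n : ℕ) (r : ℝ) : ℝ := ∫ t in Ioi r, ω t * t ^ n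

lemma split (H : Hyp ω) (n : ℕ) {a b : ℝ} (ha : 0 ≤ a) (hab : a ≤ b) :
    Tf ω n a = (∫ t in Ioc a b, ω t * t ^ n) + Tf ω n b := by
  unfold Tf
  have h0 : IntegrableOn (fun t => ω t * t ^ n) (Ioi a) := (H.hint n).mono_set (Ioi_subset_Ioi ha)
  rw [← setIntegral_union (Ioc_disjoint_Ioi le_rfl) measurableSet_Ioi
    (h0.mono_set Ioc_subset_Ioi_self) (h0.mono_set (Ioi_subset_Ioi hab)), Ioc_union_Ioi_eq_Ioi hab]

lemma I_eq (H : Hyp ω) (n : ℕ) {r : ℝ} (hr : 0 < r) :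
    If ω (n + 1) r = Del ω (n + 1) / (n + 1) - Tf ω n r := by
  have h := split H n le_rfl hr.le
  unfold If Del
  simp only [Nat.add_sub_cancel]
  unfold Tf at h ⊢
  push_cast
  field_simp
  linarith

lemma T_nonneg (H : Hyp ω) (n : ℕ) {r : ℝ} (hr : 0 < r) : 0 ≤ Tf ω n r := by
  refine setIntegral_nonneg measurableSet_Ioi fun t ht => ?_
  have ht0 : 0 < t := hr.trans ht
  have hw := H.hpos t ht0.le
  positivity

lemma logconc (H : Hyp ω) {T0 : ℝ} (hT0 : 0 < T0) (hd : ∀ t, T0 ≤ t → DifferentiableAt ℝ ω t)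
    (hm : AntitoneOn (fun t => t * deriv ω t / ω t) (Ici T0)) {l t1 t2 : ℝ} (hl : 0 < l)
    (hl1 : l ≤ 1) (h1 : T0 ≤ l * t1) (h12 : t1 ≤ t2) :
    ω t2 * ω (l * t1) ≤ ω t1 * ω (l * t2) := by
  have ht1 : 0 < t1 := by
    by_contra h
    push Not at h
    nlinarith
  have key : ∀ t, t1 ≤ t → HasDerivAt (fun t => Real.log (ω t) - Real.log (ω (l * t)))
      (deriv ω t / ω t - deriv ω (l * t) * l / ω (l * t)) t := by
    intro t ht
    have hlt : T0 ≤ l * t := h1.trans (by gcongr)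
    have htt : T0 ≤ t := hlt.trans (by nlinarith)
    have e1 := (hd t htt).hasDerivAt.log (H.hpos t (by linarith)).ne'
    have e0 : HasDerivAt (fun t => l * t) l t := by simpa using (hasDerivAt_id t).const_mul l
    have e2 := ((hd (l * t) hlt).hasDerivAt.comp t e0).log (H.hpos (l * t) (by linarith)).ne'
    exact e1.sub e2
  have anti : AntitoneOn (fun t => Real.log (ω t) - Real.log (ω (l * t))) (Ici t1) := by
    refine antitoneOn_of_deriv_nonpos (convex_Ici t1)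
      (fun t ht => (key t ht).continuousAt.continuousWithinAt)
      (fun t ht => (key t (interior_subset ht)).differentiableAt.differentiableWithinAt)
      fun t ht => ?_
    have ht' : t1 ≤ t := interior_subset ht
    rw [(key t ht').deriv]
    have hlt : T0 ≤ l * t := h1.trans (by gcongr)
    have htt : l * t ≤ t := by nlinarith
    have h3 := hm hlt (hlt.trans htt) htt
    simp only at h3
    have ht0 : 0 < t := by linarith
    have h4 : t * (deriv ω t / ω t - deriv ω (l * t) * l / ω (l * t)) ≤ 0 := by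
      have : t * (deriv ω t / ω t - deriv ω (l * t) * l / ω (l * t))
          = t * deriv ω t / ω t - l * t * deriv ω (l * t) / ω (l * t) := by ring
      linarith
    by_contra h
    push Not at h
    nlinarith
  have h5 := anti (le_refl t1) h12 h12
  simp only at h5
  have p1 := H.hpos t1 ht1.le
  have p2 := H.hpos t2 (by linarith)
  have p3 := H.hpos (l * t1) (by linarith)
  have p4 := H.hpos (l * t2) (by nlinarith)
  rw [← Real.log_le_log_iff (by positivity) (by positivity), Real.log_mul p2.ne' p3.ne',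
    Real.log_mul p1.ne' p4.ne']
  linarith

lemma T_le (H : Hyp ω) {T0 : ℝ} (hT0 : 0 < T0) (hd : ∀ t, T0 ≤ t → DifferentiableAt ℝ ω t)
    (hm : AntitoneOn (fun t => t * deriv ω t / ω t) (Ici T0)) {r1 r : ℝ} (h1 : T0 ≤ r1)
    (hr : r1 ≤ r) (n : ℕ) :
    Tf ω n r ≤ (2 * r) ^ (n + 1) * Lf ω r
      + 2 * Lf ω r / ω (2 * r1) * ((r / r1) ^ (n + 1) * Del ω (n + 1)) := by
  have hr1 : 0 < r1 := by linarith
  have hr0 : 0 < r := by linarith
  rw [split H n hr0.le (show r ≤ 2 * r by linarith)]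
  have hA : (∫ t in Ioc r (2 * r), ω t * t ^ n) ≤ (2 * r) ^ (n + 1) * Lf ω r := by
    refine le_trans ?_ (mul_le_mul_of_nonneg_left
      (L_sub H hr0 (S := Ioc r (2 * r)) Ioc_subset_Ioi_self) (by positivity))
    rw [← integral_const_mul]
    refine setIntegral_mono_on ((H.hint n).mono_set fun t ht => hr0.trans ht.1)
      (((intL H hr0).mono_set Ioc_subset_Ioi_self).const_mul _) measurableSet_Ioc fun t ht => ?_
    have ht0 : 0 < t := hr0.trans ht.1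
    have hw := H.hpos t ht0.le
    have h4 := ht.2
    calc ω t * t ^ n = t ^ (n + 1) * (ω t * t⁻¹) := by field_simp; ring
      _ ≤ _ := by gcongr
  set l := r1 / r with hl
  have hl0 : 0 < l := by positivity
  have hl1 : l ≤ 1 := by rw [hl, div_le_one hr0]; exact hr
  have hl2 : l * (2 * r) = 2 * r1 := by rw [hl]; field_simp
  have pw := H.hpos (2 * r1) (by linarith)
  have pr := H.hpos (2 * r) (by linarith)
  have hint : IntegrableOn (fun t => ω (l * t) * (l * t) ^ n) (Ioi 0) := by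
    have := (integrableOn_Ioi_comp_mul_left_iff (fun t => ω t * t ^ n) 0 hl0).2
      (by simpa using H.hint n)
    exact this
  have hval : ∫ t in Ioi (0 : ℝ), ω (l * t) * (l * t) ^ n
      = l⁻¹ * ∫ t in Ioi (0 : ℝ), ω t * t ^ n := by
    have := integral_comp_mul_left_Ioi (fun t => ω t * t ^ n) 0 hl0
    simpa using this
  have hB : Tf ω n (2 * r) ≤ ω (2 * r) / ω (2 * r1) * (l ^ n)⁻¹ *
      ∫ t in Ioi (2 * r), ω (l * t) * (l * t) ^ n := by
    unfold Tf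
    rw [← integral_const_mul]
    refine setIntegral_mono_on ((H.hint n).mono_set (Ioi_subset_Ioi (by linarith)))
      ((hint.mono_set (Ioi_subset_Ioi (by linarith))).const_mul _) measurableSet_Ioi fun t ht => ?_
    have ht' : 2 * r ≤ t := le_of_lt ht
    have ht0 : 0 < t := by linarith
    have h3 := logconc H hT0 hd hm hl0 hl1 (t1 := 2 * r) (t2 := t) (by linarith) ht'
    rw [hl2] at h3
    have h4 : ω t ≤ ω (2 * r) / ω (2 * r1) * ω (l * t) := by
      rw [div_mul_eq_mul_div, le_div_iff₀ pw]; exact h3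
    calc ω t * t ^ n ≤ (ω (2 * r) / ω (2 * r1) * ω (l * t)) * t ^ n := by gcongr
      _ = _ := by rw [mul_pow]; field_simp
  have hC : ∫ t in Ioi (2 * r), ω (l * t) * (l * t) ^ n
      ≤ ∫ t in Ioi (0 : ℝ), ω (l * t) * (l * t) ^ n := by
    refine setIntegral_mono_set hint ?_ (LE.le.eventuallyLE (Ioi_subset_Ioi (by linarith)))
    refine (ae_restrict_iff' measurableSet_Ioi).2 (Eventually.of_forall fun t ht => ?_)
    have ht0 : 0 < t := ht
    have hw := H.hpos (l * t) (by positivity)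
    simp only [Pi.zero_apply]
    positivity
  have hD : ∫ t in Ioi (0 : ℝ), ω t * t ^ n ≤ Del ω (n + 1) := by
    have h0 : 0 ≤ ∫ t in Ioi (0 : ℝ), ω t * t ^ n := by
      refine setIntegral_nonneg measurableSet_Ioi fun t ht => ?_
      have ht0 : 0 < t := ht
      have hw := H.hpos t ht0.le
      positivity
    unfold Del
    simp only [Nat.add_sub_cancel]
    push_cast
    nlinarith [Nat.cast_nonneg (α := ℝ) n]
  have hL := L_lower H hr0
  have hE : Tf ω n (2 * r) ≤ 2 * Lf ω r / ω (2 * r1) * ((r / r1) ^ (n + 1) * Del ω (n + 1)) := by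
    have hDp := Del_pos H n
    have hLp := L_pos H hr0
    calc Tf ω n (2 * r) ≤ ω (2 * r) / ω (2 * r1) * (l ^ n)⁻¹ * (l⁻¹ * Del ω (n + 1)) := by
          refine hB.trans ?_
          gcongr
          refine hC.trans ?_
          rw [hval]
          gcongr
      _ = ω (2 * r) / ω (2 * r1) * ((r / r1) ^ (n + 1) * Del ω (n + 1)) := by
          have : r / r1 = l⁻¹ := by rw [hl, inv_div]
          rw [this, pow_succ, inv_pow]; ring
      _ ≤ _ := by gcongr; linarith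
  linarith

lemma J_term (H : Hyp ω) {s : ℤ} (hs : s = -1 ∨ s = 1) {a : ℂ} (ha : a ≠ 0) {q : ℝ} (hq : 1 ≤ q)
    (hqa : (‖a‖ ^ 2)⁻¹ ≤ q) (k : ℕ) :
    ‖(starRingEnd ℂ a) ^ (s * k) * (Jf ω k ‖a‖ : ℂ)‖ ≤ q ^ k * Lf ω ‖a‖ := by
  have hr : 0 < ‖a‖ := norm_pos_iff.2 ha
  have h1 := J_le H k hr
  have h2 := J_nonneg H k hr
  have h3 := L_pos H hr
  rw [norm_mul, norm_zpow, Complex.norm_conj, Complex.norm_real, Real.norm_eq_abs,
    abs_of_nonneg h2]
  calc ‖a‖ ^ (s * k) * Jf ω k ‖a‖ ≤ ‖a‖ ^ (s * k) * ((‖a‖ ^ k)⁻¹ * Lf ω ‖a‖) := by gcongr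
    _ = (‖a‖ ^ (s * k) * (‖a‖ ^ k)⁻¹) * Lf ω ‖a‖ := by ring
    _ ≤ _ := by
      gcongr
      rcases hs with rfl | rfl
      · calc ‖a‖ ^ (-1 * (k : ℤ)) * (‖a‖ ^ k)⁻¹ = ((‖a‖ ^ 2)⁻¹) ^ k := by
              rw [neg_one_mul, zpow_neg, zpow_natCast, inv_pow, ← pow_mul, ← mul_inv, ← pow_add]
              congr 2; ring
          _ ≤ _ := by gcongr
      · rw [one_mul, zpow_natCast, mul_inv_cancel₀ (by positivity)]
        exact one_le_pow₀ hq

lemma term_bound (H : Hyp ω) {s : ℤ} (hs : s = -1 ∨ s = 1) {a : ℂ} (ha : a ≠ 0) {R : ℝ}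
    (hR : 0 < R) : ∃ C : ℝ, ∀ z : ℂ, ‖z‖ ≤ R → ∀ n : ℕ,
      ‖term ω s z a (n + 1)‖ ≤ C * (1 / 2) ^ n := by
  have hr : 0 < ‖a‖ := norm_pos_iff.2 ha
  set q : ℝ := max 1 (‖a‖ ^ 2)⁻¹ with hq
  have hq1 : 1 ≤ q := le_max_left _ _
  have hM : 0 < 2 * q * R := by positivity
  have hw := H.hpos _ hM.le
  have hw0 := H.hpos 0 le_rfl
  have h3 := L_pos H hr
  refine ⟨(ω 0 + Lf ω ‖a‖) / ω (2 * q * R), fun z hz n => ?_⟩
  have hJ := J_term H hs ha hq1 (le_max_right _ _) (n + 1)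
  have hD := Del_lower H n hM
  have hDp := Del_pos H n
  have hI : ‖a ^ (-((n + 1 : ℕ) : ℤ)) * (If ω (n + 1) ‖a‖ : ℂ)‖ ≤ q ^ (n + 1) * ω 0 := by
    rw [norm_mul, norm_zpow, Complex.norm_real, Real.norm_eq_abs, abs_of_nonneg (I_nonneg H _ _),
      zpow_neg, zpow_natCast]
    have := I_le H n hr
    calc (‖a‖ ^ (n + 1))⁻¹ * If ω (n + 1) ‖a‖
        ≤ (‖a‖ ^ (n + 1))⁻¹ * (ω 0 * ‖a‖ ^ (n + 1)) := by gcongr
      _ = 1 * ω 0 := by field_simp
      _ ≤ _ := by gcongr; exact one_le_pow₀ hq1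
  unfold term
  rw [norm_div, norm_mul, norm_pow, Complex.norm_real, Real.norm_eq_abs, abs_of_pos hDp]
  calc _ ≤ (q ^ (n + 1) * ω 0 + q ^ (n + 1) * Lf ω ‖a‖) * R ^ (n + 1)
        / (ω (2 * q * R) * (2 * q * R) ^ (n + 1)) := by
        gcongr
        exact (norm_sub_le _ _).trans (add_le_add hI hJ)
    _ = (ω 0 + Lf ω ‖a‖) / ω (2 * q * R) * (1 / 2) ^ (n + 1) := by
        rw [mul_pow, mul_pow, one_div, inv_pow]; field_simp
    _ ≤ _ := by
        gcongr _ * ?_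
        exact pow_le_pow_of_le_one (by norm_num) (by norm_num) (Nat.le_succ n)

lemma term_summable (H : Hyp ω) {s : ℤ} (hs : s = -1 ∨ s = 1) {a : ℂ} (ha : a ≠ 0) (z : ℂ) :
    Summable fun n : ℕ => term ω s z a (n + 1) := by
  obtain ⟨C, hC⟩ := term_bound H hs ha (R := ‖z‖ + 1) (by positivity)
  exact Summable.of_norm_bounded (summable_geometric_two.mul_left C) (hC z (by linarith))

lemma A_cont (H : Hyp ω) {s : ℤ} (hs : s = -1 ∨ s = 1) {a : ℂ} (ha : a ≠ 0) {R : ℝ}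
    (hR : 0 < R) {K : Set ℂ} (hK : ∀ z ∈ K, ‖z‖ ≤ R) : ContinuousOn (fun z => A ω s z a) K := by
  obtain ⟨C, hC⟩ := term_bound H hs ha hR
  have h1 : ContinuousOn (fun z => ∑' n : ℕ, term ω s z a (n + 1)) K := by
    refine continuousOn_tsum (fun n => ?_) (summable_geometric_two.mul_left C)
      fun n z hz => hC z (hK z hz) n
    unfold term
    fun_prop
  unfold A W
  fun_prop

lemma A_near (H : Hyp ω) {T0 : ℝ} (hT0 : 0 < T0) (hd : ∀ t, T0 ≤ t → DifferentiableAt ℝ ω t)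
    (hm : AntitoneOn (fun t => t * deriv ω t / ω t) (Ici T0)) {s : ℤ} (hs : s = -1 ∨ s = 1)
    {R r1 : ℝ} (hR : 0 < R) (h1 : T0 ≤ r1) (h2 : 1 ≤ r1) (h3 : 2 * R ≤ r1) {a z : ℂ}
    (ha : r1 ≤ ‖a‖) (hz : ‖z‖ ≤ R) :
    ∃ g : ℂ, A ω s z a = Complex.exp g ∧ ‖g‖ ≤ (1 + 8 / ω (2 * r1)) * Lf ω ‖a‖ := by
  have hr : 0 < ‖a‖ := by linarith
  have ha0 : a ≠ 0 := norm_pos_iff.1 hr
  have hza : ‖z / a‖ < 1 := by rw [norm_div, div_lt_one hr]; linarith
  have hw := H.hpos (2 * r1) (by linarith)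
  have hL := L_pos H hr
  set e : ℕ → ℂ := fun n => (z / a) ^ (n + 1) / (n + 1) - term ω s z a (n + 1) with he
  have hlog := Complex.hasSum_taylorSeries_neg_log' hza
  have hsum := (term_summable H hs ha0 z).hasSum
  have hes : HasSum e (-Complex.log (1 - z / a) - ∑' n : ℕ, term ω s z a (n + 1)) := hlog.sub hsum
  have hbd : ∀ n, ‖e n‖ ≤ 4 / ω (2 * r1) * Lf ω ‖a‖ * (1 / 2) ^ n := by
    intro n
    have hDp := Del_pos H n
    have hD := Del_lower H n (M := 2 * r1) (by linarith)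
    have hT := T_le H hT0 hd hm h1 ha n
    have hT0' := T_nonneg H n hr
    have hJ := J_term H hs ha0 (q := 1) le_rfl
      (inv_le_one_of_one_le₀ (one_le_pow₀ (by linarith))) (n + 1)
    rw [one_pow, one_mul] at hJ
    have hDc : (Del ω (n + 1) : ℂ) ≠ 0 := by exact_mod_cast hDp.ne'
    have hn : ((n : ℂ) + 1) ≠ 0 := by exact_mod_cast Nat.succ_ne_zero n
    have e1 : e n = ((a ^ (n + 1))⁻¹ * (Tf ω n ‖a‖ : ℂ)
        + (starRingEnd ℂ a) ^ (s * (n + 1 : ℕ)) * (Jf ω (n + 1) ‖a‖ : ℂ)) * z ^ (n + 1)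
          / (Del ω (n + 1) : ℂ) := by
      simp only [he, term]
      rw [I_eq H n hr, zpow_neg, zpow_natCast, div_pow]
      push_cast
      field_simp
      ring
    have e2 : ‖(a ^ (n + 1))⁻¹ * (Tf ω n ‖a‖ : ℂ)‖ ≤ 2 ^ (n + 1) * Lf ω ‖a‖
        + 2 * Lf ω ‖a‖ / ω (2 * r1) * ((r1 ^ (n + 1))⁻¹ * Del ω (n + 1)) := by
      rw [norm_mul, norm_inv, norm_pow, Complex.norm_real, Real.norm_eq_abs, abs_of_nonneg hT0']
      refine (mul_le_mul_of_nonneg_left hT (by positivity)).trans (le_of_eq ?_)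
      rw [mul_pow, div_pow]
      have : r1 ≠ 0 := by linarith
      field_simp
    rw [e1, norm_div, norm_mul, norm_pow, Complex.norm_real, Real.norm_eq_abs, abs_of_pos hDp]
    have hr1 : 0 < r1 := by linarith
    have b1 : (2 * R) ^ (n + 1) / Del ω (n + 1) ≤ (1 / 2) ^ (n + 1) / ω (2 * r1) := by
      calc (2 * R) ^ (n + 1) / Del ω (n + 1)
          ≤ r1 ^ (n + 1) / (ω (2 * r1) * (2 * r1) ^ (n + 1)) := by gcongr
        _ = _ := by rw [mul_pow, one_div, inv_pow]; field_simp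
    have b2 : R ^ (n + 1) / Del ω (n + 1) ≤ (1 / 2) ^ (n + 1) / ω (2 * r1) := by
      refine le_trans ?_ b1
      gcongr
      linarith
    have b3 : (R / r1) ^ (n + 1) ≤ (1 / 2) ^ (n + 1) := by
      gcongr ?_ ^ _
      rw [div_le_iff₀ hr1]; linarith
    have b4 : ((1 : ℝ) / 2) ^ (n + 1) ≤ (1 / 2) ^ n :=
      pow_le_pow_of_le_one (by norm_num) (by norm_num) (Nat.le_succ n)
    calc _ ≤ (2 ^ (n + 1) * Lf ω ‖a‖
          + 2 * Lf ω ‖a‖ / ω (2 * r1) * ((r1 ^ (n + 1))⁻¹ * Del ω (n + 1)) + Lf ω ‖a‖)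
            * R ^ (n + 1) / Del ω (n + 1) := by
          gcongr
          exact (norm_add_le _ _).trans (add_le_add e2 hJ)
      _ = Lf ω ‖a‖ * ((2 * R) ^ (n + 1) / Del ω (n + 1))
          + 2 * Lf ω ‖a‖ / ω (2 * r1) * (R / r1) ^ (n + 1)
          + Lf ω ‖a‖ * (R ^ (n + 1) / Del ω (n + 1)) := by
          rw [mul_pow, div_pow]; field_simp
      _ ≤ Lf ω ‖a‖ * ((1 / 2) ^ (n + 1) / ω (2 * r1))
          + 2 * Lf ω ‖a‖ / ω (2 * r1) * (1 / 2) ^ (n + 1)
          + Lf ω ‖a‖ * ((1 / 2) ^ (n + 1) / ω (2 * r1)) := by gcongr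
      _ = 4 / ω (2 * r1) * Lf ω ‖a‖ * (1 / 2) ^ (n + 1) := by ring
      _ ≤ _ := by gcongr
  have hnorm : ‖-Complex.log (1 - z / a) - ∑' n : ℕ, term ω s z a (n + 1)‖
      ≤ 4 / ω (2 * r1) * Lf ω ‖a‖ * 2 :=
    hes.norm_le_of_bounded (hasSum_geometric_two.mul_left _) hbd
  have hne : 1 - z / a ≠ 0 := by
    intro h
    have : z / a = 1 := by linear_combination -h
    rw [this] at hza
    simp at hza
  refine ⟨-(Lf ω ‖a‖ : ℂ) - (-Complex.log (1 - z / a) - ∑' n : ℕ, term ω s z a (n + 1)), ?_, ?_⟩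
  · unfold A W
    conv_lhs => rw [← Complex.exp_log hne]
    rw [← Complex.exp_add]
    congr 1
    ring
  · refine (norm_sub_le _ _).trans ?_
    rw [norm_neg, Complex.norm_real, Real.norm_eq_abs, abs_of_pos hL]
    have : (1 + 8 / ω (2 * r1)) * Lf ω ‖a‖ = Lf ω ‖a‖ + 4 / ω (2 * r1) * Lf ω ‖a‖ * 2 := by ring
    linarith

theorem result (ω : ℝ → ℝ) (hc : ContinuousOn ω (Ici 0)) (hpos : ∀ t, 0 ≤ t → 0 < ω t)
    (hanti : AntitoneOn ω (Ici 0))
    (hint : ∀ k : ℕ, 1 ≤ k → IntegrableOn (fun t => ω t * t ^ (k - 1)) (Ioi 0))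
    (T0 : ℝ) (hT0 : 0 < T0) (hd : ∀ t, T0 ≤ t → DifferentiableAt ℝ ω t)
    (hm : AntitoneOn (fun t => t * deriv ω t / ω t) (Ici T0))
    (s : ℤ) (hs : s = -1 ∨ s = 1)
    (zs : ℕ → ℂ) (hz : ∀ k, zs k ≠ 0) (hsum : Summable fun k => Lf ω ‖zs k‖)
    (K : Set ℂ) (hK : IsCompact K) (hKz : ∀ k, zs k ∉ K) :
    (∀ a : ℂ, a ≠ 0 → ∀ z : ℂ, Summable fun n : ℕ => term ω s z a (n + 1)) ∧
    ∃ P : ℂ → ℂ, TendstoUniformlyOn (fun N z => ∏ k ∈ Finset.range N, A ω s z (zs k)) P atTop K ∧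
      ∀ z ∈ K, P z ≠ 0 := by
  have H : Hyp ω := ⟨hc, hpos, hanti, fun n => by simpa using hint (n + 1) (by omega)⟩
  refine ⟨fun a ha z => term_summable H hs ha z, ?_⟩
  obtain ⟨R, hR, hKR⟩ := hK.isBounded.exists_pos_norm_le
  set r1 : ℝ := max T0 (max 1 (2 * R)) with hr1
  have h1 : T0 ≤ r1 := le_max_left _ _
  have h2 : 1 ≤ r1 := (le_max_left _ _).trans (le_max_right _ _)
  have h3 : 2 * R ≤ r1 := (le_max_right _ _).trans (le_max_right _ _)
  set C : ℝ := 1 + 8 / ω (2 * r1) with hC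
  have hw := H.hpos (2 * r1) (by linarith)
  have hC0 : 0 < C := by positivity
  have ht := hsum.tendsto_atTop_zero
  have hev1 : ∀ᶠ k in atTop, Lf ω ‖zs k‖ < Lf ω r1 :=
    ht.eventually (gt_mem_nhds (L_pos H (by linarith)))
  have hev2 : ∀ᶠ k in atTop, Lf ω ‖zs k‖ < C⁻¹ := ht.eventually (gt_mem_nhds (by positivity))
  have hb : ∀ᶠ k in atTop, ∀ z ∈ K, ‖A ω s z (zs k) - 1‖ ≤ 2 * C * Lf ω ‖zs k‖ := by
    filter_upwards [hev1, hev2] with k k1 k2 z hzK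
    have hk : r1 ≤ ‖zs k‖ := by
      by_contra h
      push Not at h
      have := L_anti H (norm_pos_iff.2 (hz k)) h.le
      linarith
    obtain ⟨g, hg, hg2⟩ := A_near H hT0 hd hm hs hR h1 h2 h3 hk (hKR z hzK)
    have hg3 : ‖g‖ ≤ 1 := by
      refine hg2.trans ?_
      calc C * Lf ω ‖zs k‖ ≤ C * C⁻¹ := by gcongr
        _ = 1 := by field_simp
    rw [hg]
    refine (Complex.norm_exp_sub_one_le hg3).trans ?_
    linarith
  have hu : Summable fun k => 2 * C * Lf ω ‖zs k‖ := hsum.mul_left _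
  have hP := hu.hasProdUniformlyOn_nat_one_add (f := fun k z => A ω s z (zs k) - 1) hK hb
    fun k => (A_cont H hs (hz k) hR hKR).sub continuousOn_const
  refine ⟨fun z => ∏' i, (1 + (A ω s z (zs i) - 1)), ?_, fun z hzK => ?_⟩
  · simpa using hP.tendstoUniformlyOn_finsetRange
  · refine tprod_one_add_ne_zero_of_summable (fun i => ?_) ?_
    · rw [add_sub_cancel]
      unfold A
      refine mul_ne_zero ?_ (Complex.exp_ne_zero _)
      intro h
      have h4 : z / zs i = 1 := by linear_combination -h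
      rw [div_eq_one_iff_eq (hz i)] at h4
      exact hKz i (h4 ▸ hzK)
    · refine Summable.of_norm_bounded_eventually_nat hu ?_
      filter_upwards [hb] with k hk
      simpa using hk z hzK

end Pool.Agent.Results.MP_d393fc_an.Converges
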